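import Pool.Agent.H30.TauB

set_option autoImplicit false

namespace Pool.Agent.Results.MP_9c4169_gt.GammaT

open Pool.Agent.H30.Tau Set

/-- `S₁(Γ, T)` is preserved under finite and countable unions. -/
theorem result (𝒳 : Set (Set ℝ)) (h1 : 𝒳.Countable) (h2 : 𝒳.Nonempty)
    (h : ∀ X ∈ 𝒳, S1 (Z := X) Ga Ta) : S1 (Z := ⋃₀ 𝒳) Ga Ta := by
  obtain ⟨X, rfl⟩ := h1.exists_eq_range h2
  rw [sUnion_range]
  exact (gg_iUnion fun k => gg_of (h _ ⟨k, rfl⟩)).s1.mono (fun _ => id) fun _ => Ga.ta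

end Pool.Agent.Results.MP_9c4169_gt.GammaT
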